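import Pool.Agent.TH899.UG.OGm

/-!
# One half of the times are gaps between the primes of Cunningham orbits of the second kind

`a_j(p) = 2 ^ j * (p - 1) + 1`. For every `ε > 0` there is `M` such that for EVERY multiple `N` of
`M` there is `L` such that among any `T ≥ L` consecutive multiples `j` of `N` at least `(1/2 - ε) T` are
gaps between consecutive primes of orbits: for at least `x ^ (1 - η)` primes `p ≤ x`, for every `η > 0`
and arbitrarily large `x`, the value at time `j` is prime and the values at all times `0 < l < j` are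
composite.

Proof: the coloured Maynard-Tao theorem above one quarter for linear forms
(`Pool.Agent.TH899.UG.quarterC`): two of any four classes of forms are hit, and helper25's theorem
on sets of differences of four classes (`Pool.Agent.W25.TF.s_maiF4`).
-/

set_option autoImplicit false

namespace Pool.Agent.Results.MP_39b545_nt.HalfOfOrbitGaps

open Filter

theorem result (ε : ℝ) (hε : 0 < ε) :
    ∃ M : ℕ, 0 < M ∧ ∀ N : ℕ, 0 < N → M ∣ N → ∃ L : ℕ, ∀ T : ℕ, L ≤ T → ∀ u : ℕ,
      (1 / 2 - ε) * (T : ℝ) ≤ ({k : ℕ | u < k ∧ k ≤ u + T ∧ ∀ η : ℝ, 0 < η → ∃ᶠ x : ℝ in atTop,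
        x ^ (1 - η) ≤ ({p : ℕ | (p : ℝ) ≤ x ∧ p.Prime ∧ (2 ^ (N * k) * (p - 1) + 1).Prime ∧
          ∀ l, 0 < l → l < N * k → ¬ (2 ^ l * (p - 1) + 1).Prime}.ncard : ℝ)}.ncard : ℝ) :=
  Pool.Agent.TH899.UG.OG.transferA 2 (-1) 1 le_rfl (by norm_num) (by norm_num) one_pos
    (fun p hp h => absurd (Nat.dvd_one.1 (by simpa using h)) hp.one_lt.ne')
    (fun p j => 2 ^ j * (p - 1) + 1)
    (fun p j hp => by
    have h1 : 1 ≤ p := hp.one_lt.le
    rw [Pool.Agent.H447R3.IT.iter, Pool.Agent.W218.OG.B_two]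
    push_cast [Nat.cast_sub h1]
    ring) ε hε

end Pool.Agent.Results.MP_39b545_nt.HalfOfOrbitGaps
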