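import Pool.Agent.TH899.UG.Iso

/-!
# Isolated primes of Cunningham orbits of the second kind, joined by more than half of the times

`a_j(p) = 2 ^ j * (p - 1) + 1`. There are absolute constants `δ > 0` and `J` such that for every `R`
there is `M > R` such that for EVERY multiple `N` of `M` there is `L` such that among any `T ≥ L`
consecutive multiples `j` of `N` at least `(1/2 + δ) T` have the following property. For at least
`x ^ (1 - η)` primes `p ≤ x`, for every `η > 0` and arbitrarily large `x`, the number `a_j(p)` is prime,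
at most `J` of the numbers `a_l(p)`, `0 < l < j`, are prime, and `p` and `a_j(p)` are both isolated: none of
the `R` numbers which follow `p` or `a_j(p)` in the orbit is prime, none of the `R` numbers which precede
`a_j(p)` is prime, and `p` is none of the numbers `a_1(q), ..., a_R(q)` for any prime `q`. In particular
(`R = 1`) both primes are complete Cunningham chains of exact length one.

Proof: the coloured Maynard-Tao theorem above one quarter for linear forms
(`Pool.Agent.TH899.UG.quarterD`), congruences which make the values at all other times composite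
(`Pool.Agent.W218.OG.block`), and helper142's theorem on sets of differences of many classes
(`Pool.Agent.W142.TB.s_maiB`).
-/

set_option autoImplicit false

namespace Pool.Agent.Results.MP_39b545_nt.IsolatedOrbitPrimes

open Filter

/-- `a_j(p)`, the `j`-th iterate of `x ↦ 2 x - 1` at `p ≥ 1` -/
def a (p j : ℕ) : ℕ := 2 ^ j * (p - 1) + 1

theorem result : ∃ δ : ℝ, 0 < δ ∧ ∃ J : ℕ, ∀ R : ℕ, ∃ M : ℕ, R < M ∧ ∀ N : ℕ, 0 < N → M ∣ N →
    ∃ L : ℕ, ∀ T : ℕ, L ≤ T → ∀ u : ℕ,
      (1 / 2 + δ) * (T : ℝ) ≤ ({k : ℕ | u < k ∧ k ≤ u + T ∧ ∀ η : ℝ, 0 < η → ∃ᶠ x : ℝ in atTop,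
        x ^ (1 - η) ≤ ({p : ℕ | (p : ℝ) ≤ x ∧ p.Prime ∧ (a p (N * k)).Prime ∧
          {l : ℕ | 0 < l ∧ l < N * k ∧ (a p l).Prime}.ncard ≤ J ∧
          ∀ l, 0 < l → l ≤ R → ¬ (a p l).Prime ∧ ¬ (a p (N * k + l)).Prime ∧
            ¬ (a p (N * k - l)).Prime ∧ ∀ q : ℕ, q.Prime → a q l ≠ p}.ncard : ℝ)}.ncard : ℝ) := by
  obtain ⟨δ, hδ, J, h⟩ := Pool.Agent.TH899.UG.OG.transferI
  exact ⟨δ, hδ, J, h 2 (-1) 1 le_rfl (by norm_num) (by norm_num) one_pos
    (fun p hp h => absurd (Nat.dvd_one.1 (by simpa using h)) hp.one_lt.ne')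
    a (fun p j hp => by
    have h1 : 1 ≤ p := hp.one_lt.le
    unfold a
    rw [Pool.Agent.H447R3.IT.iter, Pool.Agent.W218.OG.B_two]
    push_cast [Nat.cast_sub h1]
    ring)⟩

end Pool.Agent.Results.MP_39b545_nt.IsolatedOrbitPrimes
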