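import Pool.Agent.TH464.PO.NextForm

set_option autoImplicit false

/-!
# Almost prime Cunningham chains of the second kind of exact length `k`: the Poisson law

Let `m` be good for the exact length `k` if the `k` numbers `2 ^ i m + 1`, `i < k` (the chain
`m + 1, 2 m + 1, 4 m + 1, …` of the second kind of length `k`, starting at `m + 1`) all have at most `r`
prime factors, all larger than `X ^ (1 / r)`, but the next one, `2 ^ k m + 1`, has not. Let `V` be the
product of `1 - ρ(p) / p` over the primes `p ≤ X ^ (1 / r)`, `ρ(p)` the number of the bad residues of the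
chain. Given `θ > 0`, a size `x` and an accuracy `ε`, for all `r ≥ r0` and all large `X`, in ALL
intervals `(Z, Z + Y]` inside `[0, 2 X]` of length `Y ≥ X ^ θ` and for ALL window lengths `T` with
`T V ≤ x`, the number of the `m` in `(n, n + T]` good for the exact length `k`, for `n` in `(Z, Z + Y]`,
has the Poisson distribution of mean `T V`, up to `ε` in total variation. In particular there are about
`Y V` of them in `(Z, Z + Y]`.
-/

namespace Pool.Agent.Results.MP_39b545_nt.PoissonLaw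

open Finset Filter

/-- `N` has at most `B` prime factors (with multiplicity), all of them larger than `z`. -/
def AlmostPrime (B : ℕ) (z : ℝ) (N : ℕ) : Prop :=
  N.primeFactorsList.length ≤ B ∧ ∀ p : ℕ, p.Prime → p ∣ N → z < (p : ℝ)

/-- `m + 1` starts an almost prime Cunningham chain of the second kind of length (at least) `k`: all the
`2 ^ i m + 1`, `i < k`, have at most `r` prime factors, all larger than `X ^ (1 / r)`. -/
def Chain (k r X m : ℕ) : Prop :=
  ∀ i < k, AlmostPrime r ((X : ℝ) ^ (1 / (r : ℝ))) (2 ^ i * m + 1)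

/-- `m` is good for the exact length `k`: the chain starting at `m + 1` has length `k`, and the next number `2 ^ k m + 1` is not almost
prime. -/
def ExactChain (k r X m : ℕ) : Prop :=
  Chain k r X m ∧ ¬ AlmostPrime r ((X : ℝ) ^ (1 / (r : ℝ))) (2 ^ k * m + 1)

open Classical in
/-- The sieve density: the product of `1 - ρ(p) / p` over the primes `p ≤ X ^ (1 / r)`, where `ρ(p)` is
the number of the `t` mod `p` with `p` dividing one of the `2 ^ i t + 1`, `i < k`. -/
noncomputable def V (k r X : ℕ) : ℝ :=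
  ∏ p ∈ (Finset.range (⌊(X : ℝ) ^ (1 / (r : ℝ))⌋₊ + 1)).filter Nat.Prime,
    (1 - (((Finset.range p).filter (fun t : ℕ => ∃ i < k, p ∣ 2 ^ i * t + 1)).card : ℝ) / p)

open Classical in
/-- The number of the `m` in `(n, n + T]` that are good for the exact length `k`. -/
noncomputable def N (k r X : ℕ) (T n : ℕ) : ℕ :=
  ((Finset.Ioc n (n + T)).filter (fun m => ExactChain k r X m)).card

/-- The probability of `E` for the Poisson distribution of mean `x`. -/
noncomputable def Poi (x : ℝ) (E : Finset ℕ) : ℝ :=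
  ∑ j ∈ E, Real.exp (-x) * x ^ j / j.factorial

open Pool.Agent.TH464.PO Pool.Agent.H373R2.T7 Pool.Agent.W123.RP

lemma V_eq (k X r : ℕ) : Vq (QL (fun i => (c2u k i : ℤ)) (fun _ => ((1 : ℕ) : ℤ)))
    ⌊(X : ℝ) ^ (1 / (r : ℝ))⌋₊ = V k r X :=
  V_nat (c2u k) (fun _ => 1) _ (fun p m => c2_ex k (fun N => p ∣ N) m) _

lemma fam (k : ℕ) (hk : 2 ≤ k) (r : ℕ) (hr : 1 ≤ r) : ∀ᶠ X : ℕ in atTop, ∀ _ : Unit, True →
    ∃ u v : Fin k → ℤ, LF k u v (X ^ 1) (Real.log X ^ (k + 1)) ∧
      (∀ m ≤ 3 * X, Sf (QL u v) ⌊(X : ℝ) ^ (1 / (r : ℝ))⌋₊ m ↔ Chain k r X m) ∧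
      Vq (QL u v) ⌊(X : ℝ) ^ (1 / (r : ℝ))⌋₊ = V k r X := by
  filter_upwards [c2_fam k hk r hr] with X h _ _
  exact ⟨_, _, h.1, h.2, V_eq k X r⟩

lemma rat (k : ℕ) (_ : 2 ≤ k) (r : ℕ) (hr : 1 ≤ r) (δ : ℝ) (hδ : 0 < δ) : ∀ᶠ X : ℕ in atTop,
    V (k + 1) r X ≤ δ * V k r X := by
  filter_upwards [c2_rat k r hr δ hδ] with X h
  rw [V_eq k X r, V_eq (k + 1) X r] at h
  exact h

lemma exact_iff (k r X m : ℕ) : ExactChain k r X m ↔ Chain k r X m ∧ ¬ Chain (k + 1) r X m := by
  unfold ExactChain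
  constructor
  · rintro ⟨h1, h2⟩
    exact ⟨h1, fun h => h2 (h k (Nat.lt_succ_self k))⟩
  · rintro ⟨h1, h2⟩
    refine ⟨h1, fun h => h2 ?_⟩
    intro i hi
    rcases Nat.lt_succ_iff_lt_or_eq.1 hi with h3 | h3
    · exact h1 i h3
    · rw [h3]
      exact h

open Classical in
/-- **The Poisson law for almost prime chains of exact length `k`**, in all intervals and windows. -/
theorem result (k : ℕ) (hk : 2 ≤ k) (θ : ℝ) (hθ : 0 < θ) (x ε : ℝ) (hε : 0 < ε) :
    ∃ r0 : ℕ, ∀ r : ℕ, r0 ≤ r → ∀ᶠ X : ℕ in atTop, ∀ Z Y : ℕ, (X : ℝ) ^ θ ≤ Y →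
      Z + Y ≤ 2 * X → ∀ T : ℕ, T * V k r X ≤ x → ∀ E : Finset ℕ,
        |(((Finset.Ioc Z (Z + Y)).filter (fun n => N k r X T n ∈ E)).card : ℝ) -
          Y * Poi (T * V k r X) E| ≤ ε * Y :=
  next_pois Chain ExactChain V fam rat exact_iff k hk θ hθ x ε hε

end Pool.Agent.Results.MP_39b545_nt.PoissonLaw
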